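import Pool.Agent.N928.FG.Stm

/-!
# Project FG (helper928), MP_5501f7_pr: the inequality `2 G'² ≤ G G''` (helper362)
-/

set_option autoImplicit false

open MeasureTheory Pool.Agent.N928.FG

namespace Pool.Agent.N362.FG

/-- the coefficients -/
noncomputable def co (l : ℝ) (n : ℕ) : ℝ := l ^ 2 + 2 * l * n + (n : ℝ) * ((n : ℝ) - 1) / 2

lemma hasSum_co (l y : ℝ) (h0 : 0 ≤ y) (h1 : y < 1) :
    HasSum (fun n : ℕ => co l n * y ^ n) ((1 / (1 - y)) * (l + 1 / (1 - y) - 1) ^ 2) := by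
  have hy : ‖y‖ < 1 := by rwa [Real.norm_of_nonneg h0]
  have s0 := hasSum_choose_mul_geometric_of_norm_lt_one 0 hy
  have s1 := hasSum_choose_mul_geometric_of_norm_lt_one 1 hy
  have s2 := hasSum_choose_mul_geometric_of_norm_lt_one 2 hy
  have h := ((s0.mul_left (l ^ 2)).add ((s1.sub s0).mul_left (2 * l))).add
    ((s2.sub (s1.mul_left 2)).add s0)
  have hne : 1 - y ≠ 0 := by linarith
  have e1 : (fun n : ℕ => co l n * y ^ n) = fun n : ℕ =>
      l ^ 2 * (((n + 0).choose 0 : ℕ) * y ^ n) +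
        2 * l * (((n + 1).choose 1 : ℕ) * y ^ n - ((n + 0).choose 0 : ℕ) * y ^ n) +
        (((n + 2).choose 2 : ℕ) * y ^ n - 2 * (((n + 1).choose 1 : ℕ) * y ^ n) +
          ((n + 0).choose 0 : ℕ) * y ^ n) := by
    funext n
    rw [Nat.choose_zero_right, Nat.choose_one_right, Nat.cast_choose_two, co]
    push_cast
    ring
  have e2 : (1 / (1 - y)) * (l + 1 / (1 - y) - 1) ^ 2 =
      l ^ 2 * (1 / (1 - y) ^ (0 + 1)) + 2 * l * (1 / (1 - y) ^ (1 + 1) - 1 / (1 - y) ^ (0 + 1)) +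
        (1 / (1 - y) ^ (2 + 1) - 2 * (1 / (1 - y) ^ (1 + 1)) + 1 / (1 - y) ^ (0 + 1)) := by
    field_simp
    ring
  rw [e1, e2]
  exact h

lemma summable_lin (u : ℝ) (h0 : 0 ≤ u) (h1 : u < 1) (k : ℕ) :
    Summable (fun n : ℕ => (n : ℝ) ^ k * u ^ n) :=
  summable_pow_mul_geometric_of_norm_lt_one k (by rwa [Real.norm_of_nonneg h0])

lemma absl {Ω : Type} [MeasurableSpace Ω] (P : Measure Ω) [IsProbabilityMeasure P] (f : Ω → ℝ)
    (hf : Measurable f) (h0 : ∀ ω, 0 ≤ f ω) (h1 : ∀ ω, f ω ≤ 1) (a : ℕ → ℝ)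
    (ha : ∀ n, a n = ∫ ω, f ω ^ n ∂P) (u : ℝ) (hu0 : 0 ≤ u) (hu1 : u < 1) :
    2 * (∑' n : ℕ, (n : ℝ) * a n * u ^ n) ^ 2 ≤
      (∑' n : ℕ, a n * u ^ n) * (∑' n : ℕ, (n : ℝ) * ((n : ℝ) - 1) * a n * u ^ n) := by
  have hint : ∀ n : ℕ, Integrable (fun ω => f ω ^ n) P := by
    intro n
    refine Integrable.mono' (integrable_const (1 : ℝ)) (hf.pow_const n).aestronglyMeasurable
      (Filter.Eventually.of_forall fun ω => ?_)
    rw [Real.norm_of_nonneg (pow_nonneg (h0 ω) n)]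
    exact pow_le_one₀ (h0 ω) (h1 ω)
  have a0 : ∀ n, 0 ≤ a n := fun n => by
    rw [ha]
    exact integral_nonneg fun ω => pow_nonneg (h0 ω) n
  have a1 : ∀ n, a n ≤ 1 := fun n => by
    rw [ha]
    calc ∫ ω, f ω ^ n ∂P ≤ ∫ _ω, (1 : ℝ) ∂P :=
          integral_mono (hint n) (integrable_const _) fun ω => pow_le_one₀ (h0 ω) (h1 ω)
      _ = 1 := by simp
  have un : ∀ n : ℕ, 0 ≤ u ^ n := fun n => pow_nonneg hu0 n
  have S0 : Summable (fun n : ℕ => a n * u ^ n) := by
    refine Summable.of_nonneg_of_le (fun n => mul_nonneg (a0 n) (un n)) (fun n => ?_)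
      (summable_lin u hu0 hu1 0)
    rw [pow_zero]
    exact mul_le_mul_of_nonneg_right (a1 n) (un n)
  have S1 : Summable (fun n : ℕ => (n : ℝ) * a n * u ^ n) := by
    refine Summable.of_nonneg_of_le (fun n => mul_nonneg (mul_nonneg (Nat.cast_nonneg _) (a0 n))
      (un n)) (fun n => ?_) (summable_lin u hu0 hu1 1)
    rw [pow_one]
    refine mul_le_mul_of_nonneg_right ?_ (un n)
    have := mul_le_mul_of_nonneg_left (a1 n) (Nat.cast_nonneg (α := ℝ) n)
    linarith
  have S2' : Summable (fun n : ℕ => (n : ℝ) ^ 2 * a n * u ^ n) := by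
    refine Summable.of_nonneg_of_le (fun n => mul_nonneg (mul_nonneg (by positivity) (a0 n))
      (un n)) (fun n => ?_) (summable_lin u hu0 hu1 2)
    refine mul_le_mul_of_nonneg_right ?_ (un n)
    have := mul_le_mul_of_nonneg_left (a1 n) (by positivity : (0 : ℝ) ≤ (n : ℝ) ^ 2)
    linarith
  have S2 : Summable (fun n : ℕ => (n : ℝ) * ((n : ℝ) - 1) * a n * u ^ n) :=
    (S2'.sub S1).congr fun n => by ring
  obtain ⟨A, hA⟩ : ∃ A, A = ∑' n : ℕ, a n * u ^ n := ⟨_, rfl⟩
  obtain ⟨B, hB⟩ : ∃ B, B = ∑' n : ℕ, (n : ℝ) * a n * u ^ n := ⟨_, rfl⟩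
  obtain ⟨C, hC⟩ : ∃ C, C = ∑' n : ℕ, (n : ℝ) * ((n : ℝ) - 1) * a n * u ^ n := ⟨_, rfl⟩
  rw [← hA, ← hB, ← hC]
  have key : ∀ l : ℝ, 0 ≤ A * (l * l) + 2 * B * l + C / 2 := by
    intro l
    have e1 : A * (l * l) + 2 * B * l + C / 2 = ∑' n : ℕ, co l n * (a n * u ^ n) := by
      have h := ((S0.hasSum.mul_left (l ^ 2)).add (S1.hasSum.mul_left (2 * l))).add
        (S2.hasSum.div_const 2)
      rw [← hA, ← hB, ← hC] at h
      have h' : HasSum (fun n : ℕ => co l n * (a n * u ^ n))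
          (l ^ 2 * A + 2 * l * B + C / 2) := by
        have e3 : (fun n : ℕ => co l n * (a n * u ^ n)) = fun n : ℕ =>
            l ^ 2 * (a n * u ^ n) + 2 * l * ((n : ℝ) * a n * u ^ n) +
              ((n : ℝ) * ((n : ℝ) - 1) * a n * u ^ n) / 2 := by
          funext n
          rw [co]
          ring
        rw [e3]
        exact h
      rw [h'.tsum_eq]
      ring
    have e2 : ∀ n : ℕ, co l n * (a n * u ^ n) = ∫ ω, co l n * (u * f ω) ^ n ∂P := by
      intro n
      rw [integral_const_mul, ha]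
      simp only [mul_pow]
      rw [integral_const_mul]
      ring
    rw [e1, tsum_congr e2]
    have hF : ∀ n : ℕ, Integrable (fun ω => co l n * (u * f ω) ^ n) P := by
      intro n
      simp only [mul_pow]
      exact ((hint n).const_mul (u ^ n)).const_mul (co l n)
    have hb : ∀ n : ℕ, ∫ ω, ‖co l n * (u * f ω) ^ n‖ ∂P ≤ |co l n| * u ^ n := by
      intro n
      calc ∫ ω, ‖co l n * (u * f ω) ^ n‖ ∂P ≤ ∫ _ω, |co l n| * u ^ n ∂P := by
            refine integral_mono (hF n).norm (integrable_const _) fun ω => ?_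
            simp only [norm_mul, norm_pow, Real.norm_eq_abs]
            refine mul_le_mul_of_nonneg_left ?_ (abs_nonneg _)
            rw [← abs_mul, abs_of_nonneg (mul_nonneg hu0 (h0 ω))]
            exact pow_le_pow_left₀ (mul_nonneg hu0 (h0 ω))
              (by nlinarith [h1 ω]) n
        _ = |co l n| * u ^ n := by simp
    have hs : Summable (fun n : ℕ => ∫ ω, ‖co l n * (u * f ω) ^ n‖ ∂P) := by
      have h3 : Summable (fun n : ℕ => l ^ 2 * ((n : ℝ) ^ 0 * u ^ n) +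
          (2 * |l|) * ((n : ℝ) ^ 1 * u ^ n) + (n : ℝ) ^ 2 * u ^ n) :=
        (((summable_lin u hu0 hu1 0).mul_left _).add ((summable_lin u hu0 hu1 1).mul_left _)).add
          (summable_lin u hu0 hu1 2)
      refine Summable.of_nonneg_of_le (fun n => integral_nonneg fun ω => norm_nonneg _)
        (fun n => (hb n).trans ?_) h3
      have h4 : |co l n| ≤ l ^ 2 + 2 * |l| * n + (n : ℝ) ^ 2 := by
        have hn : (0 : ℝ) ≤ (n : ℝ) := Nat.cast_nonneg _
        have h5 : |l * n| = |l| * n := by rw [abs_mul, abs_of_nonneg hn]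
        have h6 := abs_le.mp (le_refl |l * (n : ℝ)|)
        rw [h5] at h6
        have h7 : (0 : ℝ) ≤ (n : ℝ) * ((n : ℝ) - 1) := by
          rcases Nat.eq_zero_or_pos n with h | h
          · rw [h]
            simp
          · have : (1 : ℝ) ≤ (n : ℝ) := by exact_mod_cast h
            exact mul_nonneg hn (by linarith)
        rw [co, abs_le]
        constructor
        · nlinarith [h6.1, h6.2, sq_nonneg l, sq_nonneg (n : ℝ)]
        · nlinarith [h6.1, h6.2, sq_nonneg l, sq_nonneg (n : ℝ)]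
      calc |co l n| * u ^ n ≤ (l ^ 2 + 2 * |l| * n + (n : ℝ) ^ 2) * u ^ n :=
            mul_le_mul_of_nonneg_right h4 (un n)
        _ = _ := by ring
    rw [(hasSum_integral_of_summable_integral_norm hF hs).tsum_eq]
    refine integral_nonneg fun ω => ?_
    have hy0 : 0 ≤ u * f ω := mul_nonneg hu0 (h0 ω)
    have hy1 : u * f ω < 1 := by nlinarith [h1 ω]
    change 0 ≤ ∑' n : ℕ, co l n * (u * f ω) ^ n
    rw [(hasSum_co l (u * f ω) hy0 hy1).tsum_eq]
    have : 0 < 1 - u * f ω := by linarith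
    positivity
  have hd := discrim_le_zero key
  rw [discrim] at hd
  nlinarith

theorem t_CONV : S_INT → S_S1 → S_CONV := by
  intro hI _ β hβ0 hβ1 u hu0 hu1
  have hb : ∀ i, 0 < bet β i ∧ bet β i ≤ 1 / 2 := by
    intro i
    unfold bet
    split_ifs
    · exact ⟨by norm_num, le_rfl⟩
    · exact ⟨hβ0, hβ1⟩
  have hφ : ∀ (i : Fin 6) (x : ℝ), 0 ≤ 1 - bet β i + bet β i * Real.cos (2 * Real.pi * x) ∧
      1 - bet β i + bet β i * Real.cos (2 * Real.pi * x) ≤ 1 := by
    intro i x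
    have h1 := Real.neg_one_le_cos (2 * Real.pi * x)
    have h2 := Real.cos_le_one (2 * Real.pi * x)
    obtain ⟨h3, h4⟩ := hb i
    constructor <;> nlinarith
  have hprob : IsProbabilityMeasure ((volume : Measure ℝ).restrict (Set.Ioc 0 1)) :=
    ⟨by simp⟩
  refine absl (Measure.pi fun _ : Fin 6 => (volume : Measure ℝ).restrict (Set.Ioc 0 1))
    (fun x => ∏ i, (1 - bet β i + bet β i * Real.cos (2 * Real.pi * x i))) ?_ ?_ ?_ (an β) ?_ u
    hu0 hu1
  · refine Finset.measurable_prod _ fun i _ => ?_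
    fun_prop
  · exact fun x => Finset.prod_nonneg fun i _ => (hφ i (x i)).1
  · exact fun x => Finset.prod_le_one (fun i _ => (hφ i (x i)).1) fun i _ => (hφ i (x i)).2
  · intro n
    simp only [← Finset.prod_pow]
    rw [integral_fintype_prod_eq_prod (fun i : Fin 6 => fun x : ℝ =>
      (1 - bet β i + bet β i * Real.cos (2 * Real.pi * x)) ^ n), an]
    refine Finset.prod_congr rfl fun i _ => ?_
    rw [hI (bet β i) (hb i).1 (hb i).2 n, intervalIntegral.integral_of_le zero_le_one]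

end Pool.Agent.N362.FG
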